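import Pool.Agent.W188.Tpl.Ineq

/-! Suitable tuples with a free threshold, and the main inequality with better constants.  The
arguments are those of `Pool.Agent.W188.Tpl.Use` and `Pool.Agent.W188.Tpl.Ineq` (starting files). -/

set_option autoImplicit false
set_option linter.unusedSectionVars false

namespace Pool.Agent.Y470.Tpl

open Finset Pool.Agent.W188.Tpl

variable {V : Type*} {k : ℕ}

/-- Hall's theorem with a free threshold `T`. -/
theorem rbw_of_counts' (M : V → V → Finset (Fin k)) {t : ℕ} (T : ℕ) (hk : 2 * k = t * (t - 1))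
    (v : Fin t → V) (h1 : ∀ j, j ≤ T → cnt M j v ≤ j) (h2 : ∀ c, miss M c v ≤ T + 1) :
    Rbw M v := by
  classical
  have := (Finset.all_card_le_biUnion_card_iff_exists_injective
    (fun p : {p : Fin t × Fin t // p.1 < p.2} => M (v p.1.1) (v p.1.2))).mp ?_
  · obtain ⟨f, hf, hf'⟩ := this
    exact ⟨f, hf, hf'⟩
  intro F
  by_contra hlt
  rw [not_le] at hlt
  set C := F.biUnion fun p => M (v p.1.1) (v p.1.2) with hC
  have hFk : F.card ≤ k := by
    have a1 := card_le_univ F
    have a2 := card_pairs t
    omega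
  have hFc : F.card ≤ cnt M (F.card - 1) v := by
    rw [cnt_eq_card]
    refine card_le_card fun p hp => ?_
    simp only [mem_filter, mem_univ, true_and]
    have : M (v p.1.1) (v p.1.2) ⊆ C := by
      intro c hc
      rw [hC, mem_biUnion]
      exact ⟨p, hp, hc⟩
    have := card_le_card this
    omega
  by_cases hj : F.card - 1 ≤ T
  · have := h1 _ hj
    omega
  · -- some colour is missing on all pairs of `F`
    obtain ⟨c, hc⟩ : ∃ c : Fin k, c ∉ C := by
      by_contra hall
      push Not at hall
      have : C = univ := eq_univ_iff_forall.mpr hall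
      rw [this, card_univ, Fintype.card_fin] at hlt
      omega
    have h3 := h2 c
    have h4 : F.card ≤ miss M c v := by
      rw [miss_eq_card]
      refine card_le_card fun p hp => ?_
      simp only [mem_filter, mem_univ, true_and]
      intro hcm
      exact hc (mem_biUnion.mpr ⟨p, hp, hcm⟩)
    omega

/-- the tuple is suitable for the threshold `T` -/
structure Suit' (M : V → V → Finset (Fin k)) (T : ℕ) {s : ℕ} (x : Fin s → V) : Prop where
  cnt_le : ∀ j, 2 * j ≤ k → cnt M j x ≤ j - 2
  cnt_le' : ∀ j, j ≤ T → k < 2 * j → cnt M j x + 2 * s ≤ j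
  miss_le : ∀ c, miss M c x + 2 * s ≤ T + 1

theorem rbw_cons' {s T : ℕ} (hk : 2 * k = (s + 1) * s) (h4 : 4 ≤ k) (M : V → V → Finset (Fin k))
    (x : Fin s → V) (hx : Suit' M T x) (z : V) (hz : 2 * star M z x < 3 * k)
    (hne : ∀ a, (M z (x a)).card ≠ 0) : Rbw M (Fin.cons z x : Fin (s + 1) → V) := by
  refine rbw_of_counts' M T (by simpa using hk) _ ?_ ?_
  · intro j hjT
    rw [cnt_cons]
    have h1 := D_bound M z x j
    set D := ∑ b, if (M z (x b)).card ≤ j then 1 else 0 with hD
    by_cases hj : 2 * j ≤ k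
    · have h2 := hx.cnt_le j hj
      have hD2 : D ≤ 2 := by
        by_contra hlt
        have : 3 * (k - j) ≤ D * (k - j) := Nat.mul_le_mul_right _ (by omega)
        omega
      rcases Nat.lt_or_ge j 2 with hj2 | hj2
      · rcases Nat.lt_or_ge j 1 with hj1 | hj1
        · have hj0 : j = 0 := by omega
          subst hj0
          have : D = 0 := by
            rw [hD]
            refine sum_eq_zero fun b _ => if_neg ?_
            have := hne b
            omega
          omega
        · have hj1' : j = 1 := by omega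
          subst hj1'
          have : D ≤ 1 := by
            by_contra hlt
            have : 2 * (k - 1) ≤ D * (k - 1) := Nat.mul_le_mul_right _ (by omega)
            omega
          omega
      · omega
    · have h2 := hx.cnt_le' j hjT (by omega)
      have h3 : D ≤ s := sum_ite_le (fun b => (M z (x b)).card ≤ j)
      omega
  · intro c
    rw [miss_cons]
    have h1 := hx.miss_le c
    have h2 := sum_ite_le (fun b => c ∉ M z (x b))
    omega

theorem rbw_update' {s T : ℕ} (hk : 2 * k = (s + 1) * s) (M : V → V → Finset (Fin k))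
    (hM : ∀ x y, M x y = M y x)
    (x : Fin s → V) (hx : Suit' M T x) (z z' : V) (q : Fin s) (hz : 2 * star M z x < 3 * k)
    (hz' : 2 * star M z' x < 3 * k) (hq : (M z (x q)).card = 0) (hq' : (M z' (x q)).card = 0)
    (hne : (M z z').card ≠ 0) :
    Rbw M (Fin.cons z (Function.update x q z') : Fin (s + 1) → V) := by
  classical
  -- the other star edges have many colours
  have big : ∀ z : V, 2 * star M z x < 3 * k → (M z (x q)).card = 0 → ∀ b, b ≠ q → ∀ j, 2 * j ≤ k →
      ¬ (M z (x b)).card ≤ j := by
    intro z hz hq b hb j hj hle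
    have : (k - (M z (x b)).card) + (k - (M z (x q)).card) ≤ star M z x := by
      unfold Pool.Agent.W188.Tpl.star
      rw [← sum_pair (f := fun a => k - (M z (x a)).card) hb]
      exact sum_le_sum_of_subset (subset_univ _)
    have h2 := card_le_k M z (x b)
    omega
  refine rbw_of_counts' M T (by simpa using hk) _ ?_ ?_
  · intro j hjT
    rw [cnt_cons]
    by_cases hj : 2 * j ≤ k
    · have h2 := hx.cnt_le j hj
      have h3 : (∑ b, if (M z (Function.update x q z' b)).card ≤ j then 1 else 0) ≤
          if (M z z').card ≤ j then 1 else 0 := by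
        rw [sum_eq_single q]
        · simp
        · intro b _ hb
          rw [Function.update_of_ne hb, if_neg (big z hz hq b hb j hj)]
        · simp
      have h4 : cnt M j (Function.update x q z') ≤ cnt M j x := by
        have := gen_update (fun a b => (M a b).card ≤ j) (fun a b h => by rw [hM]; exact h) x q z'
        unfold cnt
        refine le_trans this ?_
        have : (∑ b : Fin s, if b ≠ q ∧ (M z' (x b)).card ≤ j then 1 else 0) = 0 := by
          refine sum_eq_zero fun b _ => if_neg ?_
          rintro ⟨hb, h⟩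
          exact big z' hz' hq' b hb j hj h
        rw [this, add_zero]
      rcases Nat.eq_zero_or_pos j with h0 | h0
      · subst h0
        rw [if_neg (by omega)] at h3
        omega
      · have : (if (M z z').card ≤ j then 1 else 0) ≤ 1 := by split_ifs <;> simp
        omega
    · have h2 := hx.cnt_le' j hjT (by omega)
      have h3 := sum_ite_le (fun b => (M z (Function.update x q z' b)).card ≤ j)
      have h4 : cnt M j (Function.update x q z') ≤ cnt M j x + s := by
        have := gen_update (fun a b => (M a b).card ≤ j) (fun a b h => by rw [hM]; exact h) x q z'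
        unfold cnt
        refine le_trans this (Nat.add_le_add_left ?_ _)
        exact sum_ite_le (fun b => b ≠ q ∧ (M z' (x b)).card ≤ j)
      omega
  · intro c
    rw [miss_cons]
    have h1 := hx.miss_le c
    have h2 := sum_ite_le (fun b => c ∉ M z (Function.update x q z' b))
    have h4 : miss M c (Function.update x q z') ≤ miss M c x + s := by
      have := gen_update (fun a b => c ∉ M a b) (fun a b h => by rw [hM]; exact h) x q z'
      unfold miss
      refine le_trans this (Nat.add_le_add_left ?_ _)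
      exact sum_ite_le (fun b => b ≠ q ∧ c ∉ M z' (x b))
    omega

theorem suit_inj' {s T : ℕ} (M : V → V → Finset (Fin k)) (hd : ∀ x, M x x = ∅) (x : Fin s → V)
    (hx : Suit' M T x) : Function.Injective x := by
  have h0 := hx.cnt_le 0 (by omega)
  have key : ∀ a b : Fin s, a < b → x a ≠ x b := by
    intro a b hab h
    have : 1 ≤ cnt M 0 x := by
      unfold cnt
      calc 1 = if a < b ∧ (M (x a) (x b)).card ≤ 0 then 1 else 0 := by
            rw [if_pos ⟨hab, by rw [h, hd]; simp⟩]
        _ ≤ ∑ b : Fin s, if a < b ∧ (M (x a) (x b)).card ≤ 0 then 1 else 0 :=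
            single_le_sum (f := fun b => if a < b ∧ (M (x a) (x b)).card ≤ 0 then 1 else 0)
              (fun _ _ => Nat.zero_le _) (mem_univ b)
        _ ≤ _ := single_le_sum
            (f := fun a => ∑ b : Fin s, if a < b ∧ (M (x a) (x b)).card ≤ 0 then 1 else 0)
              (fun _ _ => Nat.zero_le _) (mem_univ a)
    omega
  intro a b h
  rcases lt_trichotomy a b with hab | hab | hab
  · exact absurd h (key a b hab)
  · exact hab
  · exact absurd h.symm (key b a hab)

theorem star_ge' {s T : ℕ} (hk : 2 * k = (s + 1) * s) (h4 : 4 ≤ k) (M : V → V → Finset (Fin k))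
    (hno : ∀ v : Fin (s + 1) → V, ¬ Rbw M v) (x : Fin s → V) (hx : Suit' M T x) (z : V) :
    k ≤ star M z x := by
  by_contra hlt
  refine hno _ (rbw_cons' hk h4 M x hx z (by omega) ?_)
  intro a ha
  have : k - (M z (x a)).card ≤ star M z x :=
    single_le_sum (f := fun a => k - (M z (x a)).card) (fun _ _ => Nat.zero_le _) (mem_univ a)
  omega

theorem exists_empty' {s T : ℕ} (hk : 2 * k = (s + 1) * s) (h4 : 4 ≤ k)
    (M : V → V → Finset (Fin k))
    (hno : ∀ v : Fin (s + 1) → V, ¬ Rbw M v) (x : Fin s → V) (hx : Suit' M T x) (z : V)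
    (hz : 2 * star M z x < 3 * k) : ∃ q, (M z (x q)).card = 0 := by
  by_contra hne
  push Not at hne
  exact hno _ (rbw_cons' hk h4 M x hx z hz hne)

/-- A set whose vertices have small star deficit has non-positive excess. -/
theorem small_part' {s T : ℕ} (hs : 1 ≤ s) (hk : 2 * k = (s + 1) * s) (h3 : 4 ≤ k)
    (M : V → V → Finset (Fin k)) (hM : ∀ x y, M x y = M y x)
    (hno : ∀ v : Fin (s + 1) → V, ¬ Rbw M v) (x : Fin s → V) (hx : Suit' M T x)
    (A : Finset V) (hA : ∀ z ∈ A, 2 * star M z x < 3 * k) : SG M s A A ≤ 0 := by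
  classical
  have hq : ∀ z : V, ∃ q : Fin s, 2 * star M z x < 3 * k → (M z (x q)).card = 0 := by
    intro z
    by_cases hz : 2 * star M z x < 3 * k
    · obtain ⟨q, hq⟩ := exists_empty' hk h3 M hno x hx z hz
      exact ⟨q, fun _ => hq⟩
    · exact ⟨⟨0, hs⟩, fun h => absurd h hz⟩
  choose q hq using hq
  -- pairs of the same type are empty
  have hpair : ∀ z ∈ A, ∀ z' ∈ A, ((M z z').card : ℤ) ≤ k - (if q z = q z' then (k : ℤ) else 0) := by
    intro z hz z' hz'
    split_ifs with h
    · have : (M z z').card = 0 := by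
        by_contra hne
        refine hno _ (rbw_update' hk M hM x hx z z' (q z) (hA z hz) (hA z' hz') (hq z (hA z hz)) ?_
          hne)
        rw [h]; exact hq z' (hA z' hz')
      rw [this]; simp
    · have := card_le_k M z z'
      simpa using this
  have hcs : ((A.card : ℤ)) ^ 2 ≤ s * ∑ z ∈ A, ∑ z' ∈ A, (if q z = q z' then (1 : ℤ) else 0) := by
    have e1 : (A.card : ℤ) = ∑ c : Fin s, ((A.filter fun z => q z = c).card : ℤ) := by
      rw [card_eq_sum_card_fiberwise (f := q) (t := univ) (fun _ _ => mem_coe.mpr (mem_univ _))]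
      push_cast
      rfl
    have e2 : ∑ z ∈ A, ∑ z' ∈ A, (if q z = q z' then (1 : ℤ) else 0) =
        ∑ c : Fin s, ((A.filter fun z => q z = c).card : ℤ) ^ 2 := by
      have : ∀ c : Fin s, ((A.filter fun z => q z = c).card : ℤ) ^ 2 =
          ∑ z ∈ A, ∑ z' ∈ A, (if q z = c then (1 : ℤ) else 0) * (if q z' = c then 1 else 0) := by
        intro c
        rw [pow_two, card_filter]
        push_cast
        rw [sum_mul_sum]
      symm
      calc ∑ c : Fin s, ((A.filter fun z => q z = c).card : ℤ) ^ 2 = ∑ c : Fin s, ∑ z ∈ A, ∑ z' ∈ A,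
            (if q z = c then (1 : ℤ) else 0) * (if q z' = c then 1 else 0) :=
            sum_congr rfl fun c _ => this c
        _ = ∑ z ∈ A, ∑ c : Fin s, ∑ z' ∈ A,
            (if q z = c then (1 : ℤ) else 0) * (if q z' = c then 1 else 0) := sum_comm
        _ = ∑ z ∈ A, ∑ z' ∈ A, ∑ c : Fin s,
            (if q z = c then (1 : ℤ) else 0) * (if q z' = c then 1 else 0) :=
            sum_congr rfl fun _ _ => sum_comm
        _ = _ := by
            refine sum_congr rfl fun z _ => sum_congr rfl fun z' _ => ?_
            rw [sum_eq_single (q z)]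
            · simp [eq_comm]
            · intro c _ hc
              simp [hc.symm]
            · simp
    rw [e1, e2]
    have := sq_sum_le_card_mul_sum_sq (s := (univ : Finset (Fin s)))
      (f := fun c => ((A.filter fun z => q z = c).card : ℤ))
    simpa using this
  unfold SG G
  have h4 : ∑ z ∈ A, ∑ z' ∈ A, ((M z z').card : ℤ) ≤
      k * (A.card : ℤ) ^ 2 - k * ∑ z ∈ A, ∑ z' ∈ A, (if q z = q z' then (1 : ℤ) else 0) := by
    calc _ ≤ ∑ z ∈ A, ∑ z' ∈ A, ((k : ℤ) - (if q z = q z' then (k : ℤ) else 0)) :=
          sum_le_sum fun z hz => sum_le_sum fun z' hz' => hpair z hz z' hz'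
      _ = _ := by
          simp only [sum_sub_distrib, mul_sum]
          simp
          ring
  have h5 : ∑ z ∈ A, ∑ z' ∈ A, ((s : ℤ) * ((M z z').card : ℤ) - k * (s - 1)) =
      s * ∑ z ∈ A, ∑ z' ∈ A, ((M z z').card : ℤ) - k * (s - 1) * (A.card : ℤ) ^ 2 := by
    simp only [sum_sub_distrib, ← mul_sum]
    simp
    ring
  rw [h5]
  have hs0 : (0 : ℤ) ≤ s := by positivity
  have hk0 : (0 : ℤ) ≤ k := by positivity
  have h6 := mul_le_mul_of_nonneg_left h4 hs0
  have h7 := mul_le_mul_of_nonneg_left hcs hk0
  nlinarith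

/-- The cross estimate: the star deficits of the vertices of `A` pay for the excess of `A`. -/
theorem cross' {s T : ℕ} (hs : 1 ≤ s) (hk : 2 * k = (s + 1) * s) (h3 : 4 ≤ k)
    (M : V → V → Finset (Fin k)) (hM : ∀ x y, M x y = M y x)
    (hno : ∀ v : Fin (s + 1) → V, ¬ Rbw M v) (x : Fin s → V) (hx : Suit' M T x) (A : Finset V) :
    4 * (A.card : ℤ) * ∑ z ∈ A, ∑ a, G M s z (x a) ≤ - (s * SG M s A A) := by
  classical
  set As := A.filter fun z => 2 * star M z x < 3 * k with hAs
  set Ab := A.filter fun z => ¬ 2 * star M z x < 3 * k with hAb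
  have hsplit : As ∪ Ab = A := filter_union_filter_not_eq _ _
  have hdisj : Disjoint As Ab := disjoint_filter_filter_not _ _ _
  have hcard : (As.card : ℤ) + Ab.card = A.card := by
    rw [← hsplit, card_union_of_disjoint hdisj]; push_cast; rfl
  have hsmall : SG M s As As ≤ 0 :=
    small_part' hs hk h3 M hM hno x hx As fun z hz => (mem_filter.mp hz).2
  -- excess of A
  have hAA : SG M s A A ≤ 2 * k * A.card * Ab.card := by
    have e : SG M s A A = SG M s As As + SG M s As Ab + SG M s Ab A := by
      have : SG M s A A = SG M s As A + SG M s Ab A := by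
        unfold SG
        rw [← sum_union hdisj, hsplit]
      rw [this]
      congr 1
      unfold SG
      rw [← sum_add_distrib]
      refine sum_congr rfl fun z _ => ?_
      rw [← sum_union hdisj, hsplit]
    have b1 : SG M s As Ab ≤ k * (As.card * Ab.card) := by
      unfold SG
      calc _ ≤ ∑ _x ∈ As, ∑ _y ∈ Ab, (k : ℤ) := sum_le_sum fun _ _ => sum_le_sum fun _ _ => G_le M s _ _
        _ = _ := by simp; ring
    have b2 : SG M s Ab A ≤ k * (Ab.card * A.card) := by
      unfold SG
      calc _ ≤ ∑ _x ∈ Ab, ∑ _y ∈ A, (k : ℤ) := sum_le_sum fun _ _ => sum_le_sum fun _ _ => G_le M s _ _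
        _ = _ := by simp; ring
    have b3 : (As.card : ℤ) ≤ A.card := by
      have : (0 : ℤ) ≤ Ab.card := by positivity
      linarith
    have b4 : (k : ℤ) * (As.card * Ab.card) ≤ k * (A.card * Ab.card) := by gcongr
    nlinarith
  -- deficits
  have hdef : 2 * ∑ z ∈ A, ∑ a, G M s z (x a) ≤ - (s * k * Ab.card) := by
    have e : ∑ z ∈ A, ∑ a, G M s z (x a) =
        ∑ z ∈ As, ∑ a, G M s z (x a) + ∑ z ∈ Ab, ∑ a, G M s z (x a) := by
      rw [← sum_union hdisj, hsplit]
    have c1 : ∑ z ∈ As, ∑ a, G M s z (x a) ≤ 0 := by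
      refine sum_nonpos fun z _ => ?_
      rw [sum_G_tuple]
      have := star_ge' hk h3 M hno x hx z
      have h' : (k : ℤ) ≤ star M z x := by exact_mod_cast this
      have hs0 : (0 : ℤ) ≤ s := by positivity
      nlinarith
    have c2 : 2 * ∑ z ∈ Ab, ∑ a, G M s z (x a) ≤ ∑ _z ∈ Ab, (-(s * k : ℤ)) := by
      rw [mul_sum]
      refine sum_le_sum fun z hz => ?_
      rw [sum_G_tuple]
      have := (mem_filter.mp hz).2
      have h' : (3 * k : ℤ) ≤ 2 * star M z x := by
        have : 3 * k ≤ 2 * star M z x := not_lt.mp this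
        exact_mod_cast this
      have hs0 : (0 : ℤ) ≤ s := by positivity
      nlinarith
    rw [e]
    have c3 : ∑ _z ∈ Ab, (-(s * k : ℤ)) = - (s * k * Ab.card) := by simp; ring
    rw [c3] at c2
    linarith
  have hA0 : (0 : ℤ) ≤ A.card := by positivity
  have hs0 : (0 : ℤ) ≤ s := by positivity
  have h1 := mul_le_mul_of_nonneg_left hdef (show (0 : ℤ) ≤ 2 * A.card by positivity)
  have h2 := mul_le_mul_of_nonneg_left hAA hs0
  nlinarith

theorem sum_tuple_nonpos' {s T : ℕ} (hk : 2 * k = (s + 1) * s) (h3 : 4 ≤ k)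
    (M : V → V → Finset (Fin k)) (hno : ∀ v : Fin (s + 1) → V, ¬ Rbw M v) (x : Fin s → V)
    (hx : Suit' M T x) (z : V) : ∑ a, G M s z (x a) ≤ 0 := by
  rw [sum_G_tuple]
  have := star_ge' hk h3 M hno x hx z
  have h' : (k : ℤ) ≤ star M z x := by exact_mod_cast this
  have hs0 : (0 : ℤ) ≤ s := by positivity
  nlinarith

/-- The conclusion of the counting argument. -/
theorem ineq' [Fintype V] [DecidableEq V] {s T : ℕ} (hs : 1 ≤ s) (hk : 2 * k = (s + 1) * s)
    (h3 : 4 ≤ k)
    (M : V → V → Finset (Fin k)) (hM : ∀ x y, M x y = M y x) (hd : ∀ x, M x x = ∅)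
    (hno : ∀ v : Fin (s + 1) → V, ¬ Rbw M v) (F : Finset (Fin s → V))
    (hF : ∀ x ∈ F, Suit' M T x)
    (hdis : ∀ x ∈ F, ∀ y ∈ F, x ≠ y → Disjoint (univ.image x) (univ.image y)) :
    SG M s univ univ ≤ SG M s (univ \ cover F) (univ \ cover F) ∧
    (2 * (univ \ cover F).card ≤ (cover F).card → SG M s univ univ ≤ 0) := by
  set U := cover F with hU
  set A := univ \ U with hA
  have hinj : ∀ x ∈ F, Function.Injective x := fun x hx => suit_inj' M hd x (hF x hx)
  have hsum := sum_cover F hinj hdis
  have hcard := card_cover F hinj hdis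
  have hdisj : Disjoint A U := sdiff_disjoint
  have hunion : A ∪ U = univ := by rw [hA, sdiff_union_of_subset (subset_univ _)]
  have e1 : SG M s univ univ = SG M s U U + 2 * SG M s A U + SG M s A A := by
    have a1 : ∀ X : Finset V, SG M s X univ = SG M s X A + SG M s X U := by
      intro X
      unfold SG
      rw [← sum_add_distrib]
      refine sum_congr rfl fun z _ => ?_
      rw [← sum_union hdisj, hunion]
    have a2 : SG M s univ univ = SG M s A univ + SG M s U univ := by
      unfold SG
      rw [← sum_union hdisj, hunion]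
    rw [a2, a1 A, a1 U, SG_comm M hM s U A]
    ring
  have hUz : ∀ z : V, ∑ y ∈ U, G M s z y ≤ 0 := by
    intro z
    rw [hU, hsum]
    exact sum_nonpos fun x hx => sum_tuple_nonpos' hk h3 M hno x (hF x hx) z
  have hUU : SG M s U U ≤ 0 := sum_nonpos fun z _ => hUz z
  have hAU : SG M s A U ≤ 0 := sum_nonpos fun z _ => hUz z
  refine ⟨by linarith, fun h4 => ?_⟩
  rcases lt_or_ge (SG M s A A) 0 with hneg | hpos
  · linarith
  rcases Nat.eq_zero_or_pos A.card with hA0 | hA0
  · have : A = ∅ := card_eq_zero.mp hA0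
    have : SG M s A A = 0 := by rw [this]; simp [SG]
    linarith
  have hcross : 4 * (A.card : ℤ) * SG M s A U ≤ - (U.card * SG M s A A) := by
    have e2 : SG M s A U = ∑ x ∈ F, ∑ z ∈ A, ∑ a, G M s z (x a) := by
      unfold SG
      rw [sum_comm]
      rw [sum_comm]
      rw [sum_congr rfl fun z _ => by rw [hU, hsum]]
      rw [sum_comm]
    rw [e2, mul_sum]
    calc _ ≤ ∑ _x ∈ F, (- (s * SG M s A A)) :=
          sum_le_sum fun x hx => cross' hs hk h3 M hM hno x (hF x hx) A
      _ = _ := by
          rw [sum_const, hcard, nsmul_eq_mul]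
          push_cast
          ring
  have h4' : (2 * A.card : ℤ) ≤ U.card := by exact_mod_cast h4
  have hA0' : (0 : ℤ) < A.card := by exact_mod_cast hA0
  have h5 : (2 * A.card : ℤ) * SG M s A A ≤ U.card * SG M s A A := mul_le_mul_of_nonneg_right h4' hpos
  have h6 : (2 * A.card : ℤ) * SG M s univ univ ≤ 0 := by
    have h7 : (2 * A.card : ℤ) * SG M s U U ≤ 0 := mul_nonpos_of_nonneg_of_nonpos (by positivity) hUU
    rw [e1]
    nlinarith
  by_contra hcon
  push Not at hcon
  have : 0 < (2 * A.card : ℤ) * SG M s univ univ := by positivity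
  linarith

end Pool.Agent.Y470.Tpl
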