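import Pool.Agent.W188.Tpl.MM
import Pool.Agent.W188.Tpl.Match

/-! Sharper numerical versions of the counting lemmas of `Pool.Agent.W188.Tpl`. -/

set_option autoImplicit false
set_option linter.unusedSectionVars false

namespace Pool.Agent.Y470.Tpl

open Finset Pool.Agent.W188.Tpl

section matching

variable {α : Type*} [Fintype α]

/-- Few tuples have at least `v` missing pairs in a given matching. -/
theorem mcnt_bound' {s : ℕ} (Nn : α → α → Prop) [DecidableRel Nn] (i : Fin s) (v : ℕ) (L t : ℝ)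
    (hL : 0 ≤ L) (ht : 0 ≤ t) (hN : 0 < Fintype.card α)
    (hp : L * (∑ y : α, (univ.filter fun z => Nn y z).card : ℕ) ≤ t * (Fintype.card α : ℝ) ^ 2) :
    (L + 1) ^ v * ((univ.filter fun x : Fin s → α => v ≤ mcnt Nn i x).card : ℝ) ≤
      (1 + t) ^ (s / 2) * (Fintype.card α : ℝ) ^ s := by
  have : NeZero s := ⟨fun h => by subst h; exact i.elim0⟩
  classical
  set S : Finset (Fin s) := univ.filter fun a => a < i - a with hS
  let h : α → α → ℝ := fun y z => if Nn y z then L + 1 else 1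
  have hS1 : ∀ a ∈ S, i - a ∉ S := by
    intro a ha
    rw [hS, mem_filter] at ha ⊢
    intro hc
    have h3 : i - (i - a) = a := by abel
    rw [h3] at hc
    exact absurd hc.2 (not_lt.mpr ha.2.le)
  have key := pairs_indep (α := α) (fun a : Fin s => i - a) S hS1 (fun a _ c _ hac => by
      have : i - a = i - c := hac
      exact sub_right_injective this) h
  have hprod : ∀ x : Fin s → α, ∏ a ∈ S, h (x a) (x (i - a)) = (L + 1) ^ mcnt Nn i x := by
    intro x
    simp only [h]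
    rw [prod_ite, prod_const, prod_const_one, mul_one]
    congr 1
    unfold mcnt
    rw [hS, filter_filter]
  have hH : ∑ y, ∑ z, h y z ≤ (1 + t) * (Fintype.card α : ℝ) ^ 2 := by
    have e : ∀ y, ∑ z, h y z = (Fintype.card α : ℝ) + L * ((univ.filter fun z => Nn y z).card : ℝ) := by
      intro y
      have : ∀ z, h y z = 1 + (if Nn y z then L else 0) := by
        intro z
        simp only [h]
        split_ifs <;> ring
      rw [sum_congr rfl fun z _ => this z, sum_add_distrib, sum_ite, sum_const_zero, add_zero,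
        sum_const, sum_const]
      simp
      ring
    rw [sum_congr rfl fun y _ => e y, sum_add_distrib, ← mul_sum]
    push_cast at hp
    simp only [sum_const, card_univ, nsmul_eq_mul]
    nlinarith
  have hN' : (0 : ℝ) < Fintype.card α := by exact_mod_cast hN
  have hH0 : 0 ≤ ∑ y, ∑ z, h y z := sum_nonneg fun y _ => sum_nonneg fun z _ => by
    simp only [h]; split_ifs <;> positivity
  have hScard : S.card ≤ s / 2 := by
    have h1 : (S.image fun a => i - a).card = S.card :=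
      card_image_of_injective _ sub_right_injective
    have h2 : Disjoint S (S.image fun a => i - a) := by
      rw [disjoint_right]
      intro b hb hbS
      obtain ⟨a, ha, rfl⟩ := mem_image.mp hb
      exact hS1 a ha hbS
    have h3 : (S ∪ S.image fun a => i - a).card ≤ s := by
      calc _ ≤ (univ : Finset (Fin s)).card := card_le_card (subset_univ _)
        _ = s := by simp
    rw [card_union_of_disjoint h2, h1] at h3
    omega
  have hsum : ∑ x : Fin s → α, ∏ a ∈ S, h (x a) (x (i - a)) ≤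
      (1 + t) ^ (s / 2) * (Fintype.card α : ℝ) ^ s := by
    have h3 : ((Fintype.card α : ℝ) ^ 2) ^ S.card * ∑ x : Fin s → α, ∏ a ∈ S, h (x a) (x (i - a)) ≤
        ((Fintype.card α : ℝ) ^ 2) ^ S.card * ((1 + t) ^ (s / 2) * (Fintype.card α : ℝ) ^ s) := by
      rw [key, Fintype.card_fin]
      calc _ ≤ (Fintype.card α : ℝ) ^ s * ((1 + t) * (Fintype.card α : ℝ) ^ 2) ^ S.card := by gcongr
        _ = ((Fintype.card α : ℝ) ^ 2) ^ S.card * ((1 + t) ^ S.card * (Fintype.card α : ℝ) ^ s) := by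
            rw [mul_pow]; ring
        _ ≤ _ := by gcongr; linarith
    exact le_of_mul_le_mul_left h3 (by positivity)
  refine le_trans ?_ hsum
  rw [mul_comm, ← nsmul_eq_mul, ← sum_const]
  calc _ ≤ ∑ x ∈ univ.filter (fun x : Fin s → α => v ≤ mcnt Nn i x), ∏ a ∈ S, h (x a) (x (i - a)) := by
        refine sum_le_sum fun x hx => ?_
        rw [hprod]
        exact pow_le_pow_right₀ (by linarith) (mem_filter.mp hx).2
    _ ≤ _ := sum_le_univ_sum_of_nonneg fun x => by rw [hprod]; positivity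

end matching

theorem ratio_le (s : ℕ) (hs : 1 ≤ s) : ((2 : ℝ) * s + 1) ^ s ≤ 3 * (2 * s - 1) ^ s := by
  rcases Nat.lt_or_ge s 6 with h | h
  · interval_cases s <;> norm_num
  · have hs' : (6 : ℝ) ≤ s := by exact_mod_cast h
    have h0 : (0 : ℝ) < 2 * s - 1 := by linarith
    have e : (2 * s + 1 : ℝ) = (2 * s - 1) * (1 + 2 / (2 * s - 1)) := by field_simp; ring
    rw [e, mul_pow, mul_comm]
    refine mul_le_mul_of_nonneg_right ?_ (by positivity)
    have h1 : (1 + 2 / (2 * s - 1) : ℝ) ≤ Real.exp (2 / (2 * s - 1)) := by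
      have := Real.add_one_le_exp (2 / (2 * (s : ℝ) - 1)); linarith
    calc (1 + 2 / (2 * s - 1) : ℝ) ^ s ≤ Real.exp (2 / (2 * s - 1)) ^ s :=
          pow_le_pow_left₀ (by positivity) h1 _
      _ = Real.exp (s * (2 / (2 * s - 1))) := by rw [← Real.exp_nat_mul]
      _ ≤ Real.exp (12 / 11) := by
          apply Real.exp_le_exp.mpr
          rw [mul_div_assoc', div_le_div_iff₀ h0 (by norm_num)]
          nlinarith
      _ ≤ 3 := by
          have h2 := Real.exp_one_lt_d9
          have h3 : Real.exp (12 / 11) = Real.exp 1 * Real.exp (1 / 11) := by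
            rw [← Real.exp_add]; norm_num
          have h4 : Real.exp (1 / 11) ≤ 1.1 := by
            have h5 : Real.exp (-(1 / 11)) ≥ 10 / 11 := by
              have := Real.add_one_le_exp (-(1 / 11 : ℝ)); linarith
            have h6 : Real.exp (1 / 11) * Real.exp (-(1 / 11)) = 1 := by
              rw [← Real.exp_add]; simp
            have h7 := Real.exp_pos (1 / 11)
            nlinarith
          rw [h3]
          have h8 := Real.exp_pos 1
          have h9 := Real.exp_pos (1 / 11)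
          nlinarith

theorem odd_prod3 (s : ℕ) (hs : 1 ≤ s) :
    (2 * s - 1 : ℝ) ^ s ≤ 3 ^ s * ((∏ i ∈ range s, (2 * i + 1) : ℕ) : ℝ) := by
  induction s, hs using Nat.le_induction with
  | base => norm_num
  | succ s hs ih =>
    rw [prod_range_succ]
    push_cast at ih ⊢
    have h1 := ratio_le s hs
    have hs' : (1 : ℝ) ≤ s := by exact_mod_cast hs
    have e : (2 * ((s : ℝ) + 1) - 1) = 2 * s + 1 := by ring
    rw [e, pow_succ, pow_succ]
    calc ((2 : ℝ) * s + 1) ^ s * (2 * s + 1) ≤ (3 * (2 * s - 1) ^ s) * (2 * s + 1) :=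
          mul_le_mul_of_nonneg_right h1 (by positivity)
      _ ≤ (3 * (3 ^ s * ∏ i ∈ range s, (2 * (i : ℝ) + 1))) * (2 * s + 1) := by
          apply mul_le_mul_of_nonneg_right _ (by positivity)
          linarith
      _ = _ := by ring

variable {α : Type*} [Fintype α]

theorem Z_lower3 (κ : α → α → ℝ) (hs : ∀ x y, κ x y = κ y x) (h0 : ∀ x y, 0 ≤ κ x y)
    (h1 : ∀ x y, κ x y ≤ 1) (s : ℕ) (hs1 : 1 ≤ s) (hN : 0 < Fintype.card α)
    (h2 : (2 * s - 3) * (Fintype.card α : ℝ) ^ 2 ≤ (2 * s - 1) * Z κ 2) :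
    (Fintype.card α : ℝ) ^ s ≤ 3 ^ s * Z κ s := by
  have hN' : (0 : ℝ) < Fintype.card α := by exact_mod_cast hN
  have hs1' : (1 : ℝ) ≤ s := by exact_mod_cast hs1
  have hstep : ∀ i : ℕ, i ≤ s → (Fintype.card α : ℝ) ^ i * ∏ j ∈ range i, (2 * s - 1 - 2 * j : ℝ) ≤
      (2 * s - 1) ^ i * Z κ i := by
    intro i
    induction i with
    | zero => intro _; simp [Z_zero]
    | succ i ih =>
      intro hi
      have h3 := ih (by omega)
      have h4 := (Z_step κ hs h0 h1 s hN h2 i hi).2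
      have h5 : (0 : ℝ) < 2 * s - 1 - 2 * i := by
        have : (i : ℝ) + 1 ≤ s := by exact_mod_cast hi
        linarith
      rw [prod_range_succ, pow_succ, pow_succ]
      calc _ = ((Fintype.card α : ℝ) ^ i * ∏ j ∈ range i, (2 * s - 1 - 2 * j : ℝ)) *
            (Fintype.card α * (2 * s - 1 - 2 * i)) := by ring
        _ ≤ ((2 * s - 1) ^ i * Z κ i) * (Fintype.card α * (2 * s - 1 - 2 * i)) :=
            mul_le_mul_of_nonneg_right h3 (by positivity)
        _ = (2 * s - 1) ^ i * ((2 * s - 1 - 2 * i) * (Fintype.card α * Z κ i)) := by ring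
        _ ≤ (2 * s - 1) ^ i * ((2 * s - 1) * Z κ (i + 1)) :=
            mul_le_mul_of_nonneg_left h4 (pow_nonneg (by linarith) _)
        _ = _ := by ring
  have h3 := hstep s le_rfl
  have h4 : ∏ j ∈ range s, (2 * s - 1 - 2 * j : ℝ) = ((∏ i ∈ range s, (2 * i + 1) : ℕ) : ℝ) := by
    rw [← prod_range_reflect]
    push_cast
    refine prod_congr rfl fun j hj => ?_
    have hj' := mem_range.mp hj
    have : ((s - 1 - j : ℕ) : ℝ) = s - 1 - j := by
      rw [Nat.cast_sub (by omega), Nat.cast_sub (by omega)]; simp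
    rw [this]; ring
  have h6 := odd_prod3 s hs1
  rw [h4] at h3
  have hp : (0 : ℝ) < (2 * s - 1) ^ s := pow_pos (by linarith) _
  have h7 : (2 * s - 1 : ℝ) ^ s * (Fintype.card α : ℝ) ^ s ≤ (2 * s - 1) ^ s * (3 ^ s * Z κ s) := by
    calc (2 * s - 1 : ℝ) ^ s * (Fintype.card α : ℝ) ^ s ≤
          (3 ^ s * ((∏ i ∈ range s, (2 * i + 1) : ℕ) : ℝ)) * (Fintype.card α : ℝ) ^ s := by gcongr
      _ = 3 ^ s * ((Fintype.card α : ℝ) ^ s * ((∏ i ∈ range s, (2 * i + 1) : ℕ) : ℝ)) := by ring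
      _ ≤ 3 ^ s * ((2 * s - 1) ^ s * Z κ s) := by gcongr
      _ = _ := by ring
  exact le_of_mul_le_mul_left h7 hp

/-- polynomial against exponential -/
theorem poly_le (u : ℕ) (hu : 4 ≤ u) : 2 * (40 * (u + 1)) ^ 3 ≤ 3 ^ (6 * u - 4) := by
  induction u, hu using Nat.le_induction with
  | base => norm_num
  | succ u hu ih =>
    have e : 3 ^ (6 * (u + 1) - 4) = 3 ^ (6 * u - 4) * 3 ^ 6 := by
      rw [← pow_add]; congr 1; omega
    rw [e]
    have h1 : 2 * (40 * (u + 1 + 1)) ^ 3 ≤ (2 * (40 * (u + 1)) ^ 3) * 3 ^ 6 := by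
      have h2 : (u + 1 + 1) ≤ 2 * (u + 1) := by omega
      calc 2 * (40 * (u + 1 + 1)) ^ 3 ≤ 2 * (40 * (2 * (u + 1))) ^ 3 := by gcongr
        _ = (2 * (40 * (u + 1)) ^ 3) * 2 ^ 3 := by ring
        _ ≤ _ := by gcongr <;> norm_num
    exact h1.trans (Nat.mul_le_mul_right _ ih)

theorem numeric' (k s : ℕ) (hk : 2 * k = (s + 1) * s) (hs : 199 ≤ s) :
    k * s * (12 ^ (s / 2) * (4 * 3 ^ s)) ≤ 3 ^ (5 * (15 * s / 32)) := by
  have h1 : 4 * (k * s) ≤ 3 ^ (6 * (s / 40) - 4) := by
    have h2 := poly_le (s / 40) (by omega)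
    have h3 : s + 1 ≤ 40 * (s / 40 + 1) := by omega
    calc 4 * (k * s) = 2 * ((s + 1) * s * s) := by rw [← hk]; ring
      _ ≤ 2 * ((s + 1) * (s + 1) * (s + 1)) := by gcongr <;> omega
      _ = 2 * (s + 1) ^ 3 := by ring
      _ ≤ 2 * (40 * (s / 40 + 1)) ^ 3 := by gcongr
      _ ≤ _ := h2
  have h4 : (k * s * (12 ^ (s / 2) * (4 * 3 ^ s))) ^ 16 ≤ (3 ^ (5 * (15 * s / 32))) ^ 16 := by
    have h5 : (12 ^ (s / 2)) ^ 16 ≤ 3 ^ (19 * s) := by
      calc (12 ^ (s / 2)) ^ 16 = 12 ^ (8 * (2 * (s / 2))) := by rw [← pow_mul]; congr 1; ring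
        _ ≤ 12 ^ (8 * s) := Nat.pow_le_pow_right (by norm_num) (by omega)
        _ = (12 ^ 8) ^ s := by rw [pow_mul]
        _ ≤ (3 ^ 19) ^ s := Nat.pow_le_pow_left (by norm_num) _
        _ = 3 ^ (19 * s) := by rw [pow_mul]
    calc (k * s * (12 ^ (s / 2) * (4 * 3 ^ s))) ^ 16 =
          (4 * (k * s)) ^ 16 * ((12 ^ (s / 2)) ^ 16) * (3 ^ s) ^ 16 := by ring
      _ ≤ (3 ^ (6 * (s / 40) - 4)) ^ 16 * 3 ^ (19 * s) * (3 ^ s) ^ 16 := by gcongr
      _ = 3 ^ ((6 * (s / 40) - 4) * 16 + 19 * s + s * 16) := by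
          rw [← pow_mul, ← pow_mul, ← pow_add, ← pow_add]
      _ ≤ 3 ^ (5 * (15 * s / 32) * 16) := Nat.pow_le_pow_right (by norm_num) (by omega)
      _ = _ := by rw [pow_mul]
  exact (Nat.pow_le_pow_iff_left (by norm_num)).mp h4

end Pool.Agent.Y470.Tpl
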