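import Pool.Agent.W188.Tpl.LemS
import Pool.Agent.Y470.Tpl.Core
import Pool.Agent.Y470.Tpl.Tools

/-! Existence of suitable tuples, with better constants. -/

set_option autoImplicit false
set_option linter.unusedSectionVars false

namespace Pool.Agent.Y470.Tpl

open Finset Pool.Agent.W188.Tpl

/-- Bounding an exponent. -/
theorem e_bound (β : ℝ) (hβ : 0 ≤ β) (s e a b c : ℕ) (h1 : (1 / 3 : ℝ) ^ s / 2 ≤ β ^ e)
    (h2 : β ^ a ≤ (1 / 3 : ℝ) ^ b) (h3 : (1 / 3 : ℝ) ^ c < (1 / 2) ^ a) : b * e < a * s + c := by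
  by_contra hlt
  push Not at hlt
  have h4 : ((1 / 3 : ℝ) ^ s / 2) ^ a ≤ (β ^ e) ^ a := pow_le_pow_left₀ (by positivity) h1 _
  have h5 : (β ^ e) ^ a ≤ (1 / 3 : ℝ) ^ (b * e) := by
    calc (β ^ e) ^ a = (β ^ a) ^ e := by rw [← pow_mul, ← pow_mul, mul_comm]
      _ ≤ ((1 / 3 : ℝ) ^ b) ^ e := pow_le_pow_left₀ (by positivity) h2 _
      _ = _ := by rw [← pow_mul]
  have h6 : (1 / 3 : ℝ) ^ (b * e) ≤ (1 / 3) ^ (a * s + c) :=
    pow_le_pow_of_le_one (by norm_num) (by norm_num) hlt
  have h7 : ((1 / 3 : ℝ) ^ s / 2) ^ a = (1 / 3) ^ (a * s) * (1 / 2) ^ a := by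
    rw [div_eq_mul_one_div, mul_pow, ← pow_mul, mul_comm s a]
  have h8 : (1 / 3 : ℝ) ^ (a * s) * (1 / 3) ^ c < (1 / 3) ^ (a * s) * (1 / 2) ^ a :=
    mul_lt_mul_of_pos_left h3 (by positivity)
  rw [pow_add] at h6
  linarith

variable {α : Type*} [Fintype α] {k s : ℕ}

theorem exists_suit' [DecidableEq α] (hk : 2 * k = (s + 1) * s) (hs : 199 ≤ s)
    (M : α → α → Finset (Fin k)) (hM : ∀ x y, M x y = M y x) (hN : 0 < Fintype.card α)
    (C1 : (s : ℝ) * ∑ x, ∑ y, ((k : ℝ) - (M x y).card) < k * (Fintype.card α : ℝ) ^ 2)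
    (C2 : ∀ c, 199 * ∑ x, (univ.filter fun y => c ∉ M x y).card ≤ 9 * Fintype.card α ^ 2) :
    ∃ x : Fin s → α, Suit' M (s * (15 * s / 32 + 1) - 1) x := by
  classical
  have hs' : (199 : ℝ) ≤ s := by exact_mod_cast hs
  have hs0 : (0 : ℝ) < s := lt_of_lt_of_le (by norm_num) hs'
  have hkR : 2 * (k : ℝ) = (s + 1) * s := by exact_mod_cast hk
  have hk0 : (0 : ℝ) < k := by nlinarith
  have hN' : (0 : ℝ) < Fintype.card α := by exact_mod_cast hN
  set N : ℝ := ((Fintype.card α : ℕ) : ℝ) with hNdef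
  -- step A
  have hA : (2 * s - 3) * N ^ 2 ≤ (2 * s - 1) * Z (kap M s) 2 := by
    rw [Z_two]
    set T : ℝ := ∑ x, ∑ y, (1 - ((M x y).card : ℝ) / k) with hT
    have hT1 : s * T < N ^ 2 := by
      have e : ∑ x, ∑ y, ((k : ℝ) - (M x y).card) = k * T := by
        rw [hT]
        simp only [mul_sum]
        refine sum_congr rfl fun x _ => sum_congr rfl fun y _ => ?_
        field_simp
      rw [e] at C1
      have : (k : ℝ) * (s * T) < k * N ^ 2 := by linarith
      exact lt_of_mul_lt_mul_left this hk0.le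
    have hT0 : N ^ 2 - (1 + 1 / (2 * (s + 1))) * T ≤ ∑ x, ∑ y, kap M s x y := by
      have e : N ^ 2 - (1 + 1 / (2 * (s + 1))) * T =
          ∑ x, ∑ y, (1 - (1 + 1 / (2 * (s + 1))) * (1 - ((M x y).card : ℝ) / k)) := by
        have e1 : ∀ x, ∑ y, (1 - (1 + 1 / (2 * ((s : ℝ) + 1))) * (1 - ((M x y).card : ℝ) / k)) =
            N - (1 + 1 / (2 * (s + 1))) * ∑ y, (1 - ((M x y).card : ℝ) / k) := by
          intro x
          rw [sum_sub_distrib, ← mul_sum]
          simp [hNdef]
        rw [sum_congr rfl fun x _ => e1 x, sum_sub_distrib, ← mul_sum, hT]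
        simp [hNdef, sq]
      rw [e]
      exact sum_le_sum fun x _ => sum_le_sum fun y _ => le_max_right _ _
    have h1 : (2 * s - 1) * (1 + 1 / (2 * (s + 1))) ≤ (2 * s : ℝ) := by
      rw [show (1 + 1 / (2 * ((s : ℝ) + 1))) = (2 * s + 3) / (2 * (s + 1)) by field_simp; ring,
        ← mul_div_assoc, div_le_iff₀ (by positivity)]
      nlinarith
    have hT2 : 0 ≤ T := by
      rw [hT]
      exact sum_nonneg fun x _ => sum_nonneg fun y _ => by
        have := card_div_le M x y
        linarith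
    have h3 := mul_le_mul_of_nonneg_right h1 hT2
    have h4 := mul_le_mul_of_nonneg_left hT0 (show (0 : ℝ) ≤ 2 * s - 1 by linarith)
    nlinarith
  -- step B
  have hB := Z_lower3 (kap M s) (fun x y => by unfold kap; rw [hM]) (kap_nonneg M) (kap_le_one M) s
    (by omega) hN hA
  -- step C
  set v := 15 * s / 32 with hv
  let bad : Fin k → Fin s → Finset (Fin s → α) := fun c i =>
    univ.filter fun x => v ≤ mcnt (fun y z => c ∉ M y z) i x
  have hbad : ∀ c i, (243 : ℝ) ^ v * ((bad c i).card : ℝ) ≤ 12 ^ (s / 2) * N ^ s := by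
    intro c i
    have := mcnt_bound' (fun y z => c ∉ M y z) i v 242 11 (by norm_num) (by norm_num) hN (by
      have h1 : (199 : ℝ) * ((∑ x, (univ.filter fun y => c ∉ M x y).card : ℕ) : ℝ) ≤
          9 * (Fintype.card α : ℝ) ^ 2 := by exact_mod_cast C2 c
      nlinarith)
    norm_num at this
    simpa using this
  set B : Finset (Fin s → α) := univ.biUnion fun c => univ.biUnion fun i => bad c i with hBdef
  have hBcard : (B.card : ℝ) * (4 * 3 ^ s) ≤ N ^ s := by
    have h1 : (B.card : ℝ) ≤ ∑ c : Fin k, ∑ i : Fin s, ((bad c i).card : ℝ) := by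
      exact_mod_cast card_biUnion_le.trans (sum_le_sum fun c _ => card_biUnion_le)
    have h2 : (243 : ℝ) ^ v * B.card ≤ k * s * (12 ^ (s / 2) * N ^ s) := by
      calc (243 : ℝ) ^ v * B.card ≤ 243 ^ v * ∑ c : Fin k, ∑ i : Fin s, ((bad c i).card : ℝ) :=
            mul_le_mul_of_nonneg_left h1 (by positivity)
        _ = ∑ c : Fin k, ∑ i : Fin s, 243 ^ v * ((bad c i).card : ℝ) := by simp only [mul_sum]
        _ ≤ ∑ _c : Fin k, ∑ _i : Fin s, 12 ^ (s / 2) * N ^ s :=
            sum_le_sum fun c _ => sum_le_sum fun i _ => hbad c i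
        _ = _ := by simp; ring
    have h3 : (k : ℝ) * s * (12 ^ (s / 2) * (4 * 3 ^ s)) ≤ 243 ^ v := by
      have h := numeric' k s hk hs
      rw [pow_mul] at h
      norm_num at h
      exact_mod_cast h
    have h4 : (243 : ℝ) ^ v * (B.card * (4 * 3 ^ s)) ≤ 243 ^ v * N ^ s := by
      calc (243 : ℝ) ^ v * ((B.card : ℝ) * (4 * 3 ^ s)) = ((243 : ℝ) ^ v * (B.card : ℝ)) * (4 * 3 ^ s) := by
            ring
        _ ≤ (k * s * (12 ^ (s / 2) * N ^ s)) * (4 * 3 ^ s) :=
            mul_le_mul_of_nonneg_right h2 (by positivity)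
        _ = (k * s * (12 ^ (s / 2) * (4 * 3 ^ s))) * N ^ s := by ring
        _ ≤ _ := mul_le_mul_of_nonneg_right h3 (by positivity)
    exact le_of_mul_le_mul_left h4 (by positivity)
  -- step D
  obtain ⟨x, hxB, hxP⟩ : ∃ x : Fin s → α, x ∉ B ∧ (1 / 3 : ℝ) ^ s / 2 ≤ P (kap M s) x := by
    by_contra hcon
    push Not at hcon
    have h1 : Z (kap M s) s ≤ B.card + N ^ s * ((1 / 3 : ℝ) ^ s / 2) := by
      unfold Z
      rw [← sum_add_sum_compl B]
      refine add_le_add ?_ ?_
      · calc _ ≤ ∑ _x ∈ B, (1 : ℝ) := sum_le_sum fun x _ => by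
              have := P_le_pow M x k 1 (fun y z _ => kap_le_one M y z)
              simpa using this
          _ = _ := by simp
      · calc _ ≤ ∑ _x ∈ Bᶜ, ((1 / 3 : ℝ) ^ s / 2) := sum_le_sum fun x hx =>
              (hcon x (mem_compl.mp hx)).le
          _ = (Bᶜ.card : ℝ) * ((1 / 3 : ℝ) ^ s / 2) := by simp
          _ ≤ _ := by
              gcongr
              have : Bᶜ.card ≤ Fintype.card (Fin s → α) := card_le_univ _
              rw [Fintype.card_fun, Fintype.card_fin] at this
              rw [hNdef]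
              exact_mod_cast this
    have h3 : (1 / 3 : ℝ) ^ s * 3 ^ s = 1 := by
      rw [← mul_pow]; norm_num
    have h4 : N ^ s ≤ 3 ^ s * (B.card + N ^ s * ((1 / 3 : ℝ) ^ s / 2)) :=
      hB.trans (mul_le_mul_of_nonneg_left h1 (by positivity))
    have h5 : 3 ^ s * (B.card + N ^ s * ((1 / 3 : ℝ) ^ s / 2)) =
        (B.card * (4 * 3 ^ s)) / 4 + N ^ s * ((1 / 3 : ℝ) ^ s * 3 ^ s) / 2 := by ring
    rw [h5, h3] at h4
    have h6 : 0 < N ^ s := by positivity
    linarith
  have frac : ∀ (j : ℕ) (y z : α), (M y z).card ≤ j → kap M s y z ≤ j / k := by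
    intro j y z h
    refine (kap_le_frac M y z).trans ?_
    gcongr
  have e_of : ∀ (j : ℕ) (β : ℝ), 0 ≤ β → (j : ℝ) ≤ β * k → (1 / 3 : ℝ) ^ s / 2 ≤ β ^ cnt M j x := by
    intro j β hβ h
    refine hxP.trans (P_le_pow M x j β fun y z h2 => (frac j y z h2).trans ?_)
    rw [div_le_iff₀ hk0]
    exact h
  refine ⟨x, ⟨?_, ?_, ?_⟩⟩
  · -- step F
    intro j hj
    set e := cnt M j x with he
    have hjR : 2 * (j : ℝ) ≤ k := by exact_mod_cast hj
    have e1 : e ≤ 2 * s + 1 := by
      have := e_bound (1 / 2) (by norm_num) s e 8 5 6 (e_of j (1 / 2) (by norm_num) (by linarith))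
        (by norm_num) (by norm_num)
      omega
    rcases Nat.lt_or_ge (9 * j) (2 * s) with h5 | h5
    · have e0 : e = 0 := by
        by_contra hne
        have h1 := P_le_pow M x j 0 (fun y z h => by
          unfold kap
          refine max_le le_rfl ?_
          have h2 : ((M y z).card : ℝ) * (2 * s + 3) ≤ k := by
            have h3 : ((M y z).card : ℝ) ≤ j := by exact_mod_cast h
            have h4 : 9 * (j : ℝ) < 2 * s := by exact_mod_cast h5
            have h6 : ((M y z).card : ℝ) * (2 * s + 3) ≤ (2 * s / 9) * (2 * s + 3) := by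
              gcongr; linarith
            nlinarith
          have h3 : ((M y z).card : ℝ) / k ≤ 1 / (2 * s + 3) := by
            rw [div_le_div_iff₀ hk0 (by positivity)]; linarith
          have h4 : 1 ≤ (1 + 1 / (2 * ((s : ℝ) + 1))) * (1 - 1 / (2 * s + 3)) := by
            have : (1 + 1 / (2 * ((s : ℝ) + 1))) * (1 - 1 / (2 * s + 3)) = 1 := by
              field_simp
              ring
            rw [this]
          have h7 : (1 + 1 / (2 * ((s : ℝ) + 1))) * (1 - 1 / (2 * s + 3)) ≤
              (1 + 1 / (2 * ((s : ℝ) + 1))) * (1 - ((M y z).card : ℝ) / k) := by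
            gcongr
          linarith)
        rw [zero_pow hne] at h1
        have : (0 : ℝ) < (1 / 3) ^ s / 2 := by positivity
        linarith
      omega
    · rcases Nat.lt_or_ge s (2 * j) with h6 | h6
      · rcases Nat.lt_or_ge j (2 * s + 3) with h7 | h7
        · have := e_bound (1 / 49) (by norm_num) s e 2 7 2 (e_of j (1 / 49) (by norm_num) (by
            have h8 : (j : ℝ) ≤ 2 * s + 2 := by
              have : j ≤ 2 * s + 2 := by omega
              exact_mod_cast this
            nlinarith)) (by norm_num) (by norm_num)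
          omega
        · omega
      · have := e_bound (1 / 200) (by norm_num) s e 5 24 4 (e_of j (1 / 200) (by norm_num) (by
          have h8 : 2 * (j : ℝ) ≤ s := by exact_mod_cast h6
          nlinarith)) (by norm_num) (by norm_num)
        omega
  · -- step F'
    intro j hjT hj
    set e := cnt M j x with he
    have h1 : (j : ℝ) ≤ (17 / 18) * k := by
      have h2 : 32 * v ≤ 15 * s := Nat.mul_div_le _ _
      have h3 : j ≤ s * (v + 1) := hjT.trans (Nat.sub_le _ _)
      have h2' : 32 * (v : ℝ) ≤ 15 * s := by exact_mod_cast h2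
      have h3' : (j : ℝ) ≤ s * (v + 1) := by exact_mod_cast h3
      have h4 : (s : ℝ) * (v + 1) ≤ s * ((17 / 36) * (s + 1)) :=
        mul_le_mul_of_nonneg_left (by linarith) hs0.le
      nlinarith
    have h2 := e_bound (17 / 18) (by norm_num) s e 20 1 13 (e_of j (17 / 18) (by norm_num) h1)
      (by norm_num) (by norm_num)
    have h3 : 50 * s ≤ j := by
      have : 200 * s ≤ 2 * k := by rw [hk]; exact Nat.mul_le_mul_right _ (by omega)
      omega
    omega
  · -- step E
    intro c
    have h1 : miss M c x ≤ s * (v - 1) := by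
      rw [miss_eq_pcnt, pcnt_eq]
      calc _ ≤ ∑ _i : Fin s, (v - 1) := by
            refine sum_le_sum fun i _ => ?_
            by_contra hlt
            refine hxB ?_
            rw [hBdef, mem_biUnion]
            refine ⟨c, mem_univ _, ?_⟩
            rw [mem_biUnion]
            refine ⟨i, mem_univ _, ?_⟩
            simp only [bad, mem_filter, mem_univ, true_and]
            omega
        _ = _ := by simp
    have hv1 : 1 ≤ v := by omega
    obtain ⟨u, hu⟩ : ∃ u, v = u + 1 := ⟨v - 1, by omega⟩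
    rw [hu] at h1 ⊢
    rw [Nat.add_sub_cancel] at h1
    have h2 : s * (u + 1 + 1) = s * u + 2 * s := by ring
    rw [h2]
    omega

end Pool.Agent.Y470.Tpl
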