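import Pool.Agent.W188.Tpl.Main
import Pool.Agent.Y470.Tpl.Exists

/-! Dense templates contain rainbow cliques: average condition, `r ≥ 200`. -/

set_option autoImplicit false
set_option linter.unusedSectionVars false

namespace Pool.Agent.Y470.Tpl

open Finset Pool.Agent.W188.Tpl

variable {V : Type*} {k s : ℕ}

/-- If the average colour class has more than the Turan density and every colour class misses at
most a proportion `1 / 199` of the ordered pairs, there is a rainbow clique. -/
theorem main_upper' [Fintype V] [DecidableEq V] (hk : 2 * k = (s + 1) * s) (hs : 199 ≤ s)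
    (M : V → V → Finset (Fin k)) (hM : ∀ x y, M x y = M y x) (hd : ∀ x, M x x = ∅)
    (hav : s * ∑ c, ∑ x, (univ.filter fun y => c ∉ M x y).card < k * Fintype.card V ^ 2)
    (hc : ∀ c, 199 * ∑ x, (univ.filter fun y => c ∉ M x y).card ≤ Fintype.card V ^ 2) :
    ∃ v : Fin (s + 1) → V, Rbw M v := by
  classical
  by_contra hno
  push Not at hno
  have hs1 : 1 ≤ s := le_trans (by norm_num) hs
  have hk3 : 4 ≤ k := by nlinarith
  -- the total excess is positive
  have hpos : 0 < SG M s univ univ := by
    rw [sum_G_eq]
    have e1 : ∑ x : V, ∑ y : V, ((k : ℤ) - (M x y).card) =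
        ((∑ c : Fin k, ∑ x : V, (univ.filter fun y => c ∉ M x y).card : ℕ) : ℤ) := by
      rw [sum_comm (s := (univ : Finset (Fin k)))]
      push_cast
      refine sum_congr rfl fun x _ => ?_
      have e2 : ∀ c : Fin k, ((univ.filter fun y => c ∉ M x y).card : ℤ) =
          ∑ y : V, if c ∉ M x y then (1 : ℤ) else 0 := by
        intro c
        rw [card_filter]; push_cast; rfl
      rw [sum_congr rfl fun c _ => e2 c, sum_comm]
      refine sum_congr rfl fun y _ => ?_
      have e3 : ∑ c : Fin k, (if c ∉ M x y then (1 : ℤ) else 0) = ((M x y)ᶜ.card : ℤ) := by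
        have e4 : (M x y)ᶜ = univ.filter fun c => c ∉ M x y := by ext; simp
        rw [e4, card_filter]
        push_cast
        rfl
      rw [e3, card_compl, Nat.cast_sub (card_le_univ _)]
      simp
    rw [e1]
    have h2 : ((s * ∑ c : Fin k, ∑ x : V, (univ.filter fun y => c ∉ M x y).card : ℕ) : ℤ) <
        ((k * Fintype.card V ^ 2 : ℕ) : ℤ) := by exact_mod_cast hav
    rw [card_univ]
    push_cast at h2 ⊢
    linarith
  -- a maximal family
  let Good : Finset (Fin s → V) → Prop := fun F =>
    (∀ x ∈ F, Suit' M (s * (15 * s / 32 + 1) - 1) x) ∧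
    ∀ x ∈ F, ∀ y ∈ F, x ≠ y → Disjoint (univ.image x) (univ.image y)
  obtain ⟨F, hFG, hmax⟩ := exists_max_image (univ.filter Good) (fun F => F.card)
    ⟨∅, by simp [Good]⟩
  rw [mem_filter] at hFG
  obtain ⟨-, hF, hdis⟩ := hFG
  have hineq := ineq' hs1 hk hk3 M hM hd hno F hF hdis
  set A := univ \ cover F with hA
  by_cases h4 : 2 * A.card ≤ (cover F).card
  · exact absurd (hineq.2 h4) (not_le.mpr hpos)
  · have hAA : 0 < SG M s A A := lt_of_lt_of_le hpos hineq.1
    have hcard : Fintype.card V < 3 * A.card := by
      have : A.card + (cover F).card = Fintype.card V := by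
        rw [hA, card_sdiff_add_card, union_eq_left.mpr (subset_univ _), card_univ]
      omega
    let M' : A → A → Finset (Fin k) := fun x y => M x y
    have hC1 : (s : ℝ) * ∑ x : A, ∑ y : A, ((k : ℝ) - (M' x y).card) <
        k * (Fintype.card A : ℝ) ^ 2 := by
      have e : ∑ x : A, ∑ y : A, ((k : ℝ) - (M' x y).card) =
          ((∑ x ∈ A, ∑ y ∈ A, ((k : ℤ) - (M x y).card) : ℤ) : ℝ) := by
        push_cast
        rw [← sum_coe_sort A]
        refine sum_congr rfl fun x _ => ?_
        rw [← sum_coe_sort A]
      rw [e, Fintype.card_coe]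
      rw [sum_G_eq] at hAA
      have h1 : (s : ℤ) * ∑ x ∈ A, ∑ y ∈ A, ((k : ℤ) - (M x y).card) < k * (A.card : ℤ) ^ 2 := by
        linarith
      exact_mod_cast h1
    have hC2 : ∀ c, 199 * ∑ x : A, (univ.filter fun y : A => c ∉ M' x y).card ≤
        9 * Fintype.card A ^ 2 := by
      intro c
      have e : ∑ x : A, (univ.filter fun y : A => c ∉ M' x y).card ≤
          ∑ x : V, (univ.filter fun y => c ∉ M x y).card := by
        have e1 : ∀ x : A, (univ.filter fun y : A => c ∉ M' x y).card ≤
            (univ.filter fun y : V => c ∉ M x y).card := by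
          intro x
          refine card_le_card_of_injOn (fun y => (y : V)) ?_ (fun _ _ _ _ h => Subtype.ext h)
          intro y hy
          simpa [M'] using hy
        calc _ ≤ ∑ x : A, (univ.filter fun y : V => c ∉ M x y).card := sum_le_sum fun x _ => e1 x
          _ = ∑ x ∈ A, (univ.filter fun y : V => c ∉ M x y).card :=
              sum_coe_sort A (fun x => (univ.filter fun y : V => c ∉ M x y).card)
          _ ≤ _ := sum_le_sum_of_subset (subset_univ _)
      have h1 := Nat.mul_le_mul_left 199 e
      have h2 := hc c
      rw [Fintype.card_coe]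
      nlinarith
    obtain ⟨x, hx⟩ := exists_suit' hk hs M' (fun x y => hM x y)
      (by rw [Fintype.card_coe]; omega) hC1 hC2
    -- extend the family
    let x' : Fin s → V := fun a => (x a : V)
    have hx' : Suit' M (s * (15 * s / 32 + 1) - 1) x' := ⟨hx.cnt_le, hx.cnt_le', hx.miss_le⟩
    have hnew : ∀ y ∈ F, Disjoint (univ.image x') (univ.image y) := by
      intro y hy
      rw [disjoint_left]
      intro z hz1 hz2
      obtain ⟨a, _, ha⟩ := mem_image.mp hz1
      have h1 : z ∈ A := ha ▸ (x a).2
      rw [hA, mem_sdiff] at h1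
      exact h1.2 (mem_biUnion.mpr ⟨y, hy, hz2⟩)
    have hnotin : x' ∉ F := by
      intro h
      have := hnew x' h
      rw [disjoint_self] at this
      have hne : (univ.image x').Nonempty := by
        have : Nonempty (Fin s) := ⟨⟨0, hs1⟩⟩
        exact univ_nonempty.image _
      rw [this] at hne
      exact absurd hne (by simp)
    have hG : insert x' F ∈ univ.filter Good := by
      rw [mem_filter]
      refine ⟨mem_univ _, ?_, ?_⟩
      · intro y hy
        rcases mem_insert.mp hy with rfl | hy
        · exact hx'
        · exact hF y hy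
      · intro y hy z hz hyz
        rcases mem_insert.mp hy with rfl | hy
        · rcases mem_insert.mp hz with rfl | hz
          · exact absurd rfl hyz
          · exact hnew z hz
        · rcases mem_insert.mp hz with rfl | hz
          · exact (hnew y hy).symm
          · exact hdis y hy z hz hyz
    have := hmax _ hG
    rw [card_insert_of_notMem hnotin] at this
    omega

end Pool.Agent.Y470.Tpl
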